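import Pool.Agent.Work.MP_cb106b_nt.Ct.Most

set_option autoImplicit false

/-!
# MP_cb106b_nt, counting solutions

For every `δ > 0` and every large `K` there are at most `2 ^ ((1 / 8 + δ) * 2 ^ K)` positive
integers `n` with at most `K` prime factors and `φ(n) ∣ n + 1`.
-/

namespace Pool.Agent.Results.MP_cb106b_nt.CountEighth

/-- The number of `n` with `φ(n) ∣ n + 1` and at most `K` prime factors. -/
theorem result (δ : ℝ) (hδ : 0 < δ) : ∃ K₀ : ℕ, ∀ K : ℕ, K₀ ≤ K →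
    {n : ℕ | Nat.totient n ∣ n + 1 ∧ n.primeFactors.card ≤ K}.Finite ∧
    ({n : ℕ | Nat.totient n ∣ n + 1 ∧ n.primeFactors.card ≤ K}.ncard : ℝ) ≤
      (2 : ℝ) ^ ((1 / 8 + δ) * 2 ^ K) :=
  Pool.Agent.Work.MP_cb106b_nt.Ct.at_most δ hδ

end Pool.Agent.Results.MP_cb106b_nt.CountEighth
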