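import Pool.Agent.Work.MP_cb106b_nt.Fin

/-!
# `φ(n) ∣ n + 1`: finitely many solutions with `t` prime factors which are not Fermat primes
-/

set_option autoImplicit false

namespace Pool.Agent.Results.MP_cb106b_nt.FiniteNonFermat

open Pool.Agent.Work.MP_cb106b_nt.FP

/-- For every `t` there are only finitely many `n` with `φ(n) ∣ n + 1` which have at most `t`
prime factors that are not Fermat primes. -/
theorem result (t : ℕ) : {n : ℕ | Nat.totient n ∣ n + 1 ∧
    {p : ℕ | p.Prime ∧ p ∣ n ∧ ¬ ∃ k : ℕ, p = 2 ^ (2 ^ k) + 1}.ncard ≤ t}.Finite := by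
  classical
  refine (finite_t t).subset ?_
  rintro n ⟨h1, h2⟩
  refine ⟨h1, ?_⟩
  have hn : n ≠ 0 := by
    rintro rfl
    simp at h1
  have e : {p : ℕ | p.Prime ∧ p ∣ n ∧ ¬ ∃ k : ℕ, p = 2 ^ (2 ^ k) + 1} = (TT n : Set ℕ) := by
    ext p
    simp only [Set.mem_setOf_eq, Finset.mem_coe, TT, Finset.mem_filter, Nat.mem_primeFactors]
    constructor
    · rintro ⟨a, b, c⟩
      exact ⟨⟨a, b, hn⟩, c⟩
    · rintro ⟨⟨a, b, -⟩, c⟩
      exact ⟨a, b, c⟩
  rw [e, Set.ncard_coe_finset] at h2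
  exact h2

end Pool.Agent.Results.MP_cb106b_nt.FiniteNonFermat
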