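import Pool.Agent.Work.MP_cb106b_nt.OddPart

/-!
# `φ(n) ∣ n + 1`: solutions for which `φ(n)` has at most one odd prime factor
-/

set_option autoImplicit false

namespace Pool.Agent.Results.MP_cb106b_nt.OneOddPrime

open Pool.Agent.Work.MP_cb106b_nt.FP

/-- If `φ(n) ∣ n + 1`, `φ(n)` has at most two distinct prime factors and `n` is not divisible by
a Fermat prime `2 ^ (2 ^ k) + 1` with `k ≥ 20`, then `n` is 2 or `2 ^ (2 ^ k) - 1`, `k ≤ 5`. -/
theorem result (n : ℕ) (hn : 2 ≤ n) (hd : Nat.totient n ∣ n + 1)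
    (hw : (Nat.totient n).primeFactors.card ≤ 2)
    (hF : ∀ k : ℕ, 20 ≤ k → (2 ^ (2 ^ k) + 1).Prime → ¬ 2 ^ (2 ^ k) + 1 ∣ n) :
    n = 2 ∨ ∃ k : ℕ, 1 ≤ k ∧ k ≤ 5 ∧ n = 2 ^ (2 ^ k) - 1 := by
  rcases Nat.lt_or_ge n 3 with h3 | h3
  · left; omega
  right
  have hφ0 : Nat.totient n ≠ 0 := (Nat.totient_pos.2 (by omega)).ne'
  have h2 : 2 ∈ (Nat.totient n).primeFactors := by
    rw [Nat.mem_primeFactors]
    exact ⟨Nat.prime_two, (Nat.totient_even (by omega)).two_dvd, hφ0⟩
  have hK5 : ∀ k ∈ KK n, k < 5 := by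
    intro k hk
    have h1 := mem_KK.1 hk
    by_contra h5
    rcases Nat.lt_or_ge k 20 with h20 | h20
    · exact fermat_not_prime (by omega) (by omega) (Nat.prime_of_mem_primeFactors h1)
    · exact hF k h20 (Nat.prime_of_mem_primeFactors h1) (Nat.dvd_of_mem_primeFactors h1)
  by_cases hq : ∃ q : ℕ, q.Prime ∧ q ≠ 2 ∧ q ∣ Nat.totient n
  · exfalso
    obtain ⟨q, hq1, hq2, hq3⟩ := hq
    refine oddpart h3 hd hK5 hq1 hq2 ?_ hq3
    intro r hr hrd
    by_contra hcon
    have hr2 : r ≠ 2 := fun h => hcon (Or.inl h)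
    have hrq : r ≠ q := fun h => hcon (Or.inr h)
    have h4 : ({2, q, r} : Finset ℕ) ⊆ (Nat.totient n).primeFactors := by
      intro x hx
      simp only [Finset.mem_insert, Finset.mem_singleton] at hx
      rcases hx with rfl | rfl | rfl
      · exact h2
      · exact Nat.mem_primeFactors.2 ⟨hq1, hq3, hφ0⟩
      · exact Nat.mem_primeFactors.2 ⟨hr, hrd, hφ0⟩
    have h5 := Finset.card_le_card h4
    have h6 : ({2, q, r} : Finset ℕ).card = 3 := by
      rw [Finset.card_insert_of_notMem, Finset.card_insert_of_notMem, Finset.card_singleton]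
      · simp only [Finset.mem_singleton]
        exact fun h => hrq h.symm
      · simp only [Finset.mem_insert, Finset.mem_singleton, not_or]
        exact ⟨fun h => hq2 h.symm, fun h => hr2 h.symm⟩
    omega
  · -- all prime factors are Fermat primes
    have hT : TT n = ∅ := by
      by_contra hne
      obtain ⟨p, hp⟩ := Finset.nonempty_iff_ne_empty.2 hne
      obtain ⟨hp1, hpn, hp7, hp2, hpF⟩ := T_mem h3 hd hp
      have hdv : p - 1 ∣ Nat.totient n := by
        have := Nat.totient_dvd_of_dvd hpn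
        rwa [Nat.totient_prime hp1] at this
      obtain ⟨a, b, hab⟩ := two_pow_form (m := p - 1) (q := 2) (by omega) Nat.prime_two
        (fun r hr hrd => by
          by_contra hcon
          exact hq ⟨r, hr, fun h => hcon (Or.inl h), hrd.trans hdv⟩)
      rw [← pow_add] at hab
      have he0 : a + b ≠ 0 := by
        intro h0
        rw [h0] at hab
        norm_num at hab
        omega
      have h4 : p = 2 ^ (a + b) + 1 := by omega
      rw [h4] at hp1
      obtain ⟨l, hl⟩ := Nat.pow_of_pow_add_prime (by norm_num) he0 hp1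
      apply hpF l
      rw [h4, hl]; rfl
    rcases class2 h3 hd (by rw [hT]; simp) with h5 | h5
    · exact h5
    · exfalso
      have h353 : 353 ∈ TT n := by
        classical
        rw [TT, Finset.mem_filter, Nat.mem_primeFactors]
        refine ⟨⟨by norm_num, by rw [h5]; norm_num, by omega⟩, ?_⟩
        rintro ⟨k, hk⟩
        rcases Nat.lt_or_ge k 4 with h4 | h4
        · interval_cases k <;> revert hk <;> norm_num [Nat.fermatNumber]
        · have := Nat.fermatNumber_mono h4
          have h6 : Nat.fermatNumber 4 = 65537 := by norm_num [Nat.fermatNumber]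
          omega
      rw [hT] at h353
      simp at h353

end Pool.Agent.Results.MP_cb106b_nt.OneOddPrime
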