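import Mathlib

set_option autoImplicit false

namespace Pool.Agent.Results.MP_cb106b_nt.SharpBound

open Finset

/-- Abel summation inequality: antitone nonnegative weights, nonnegative partial sums. -/
lemma abel_ge (w d : ℕ → ℝ) : ∀ r : ℕ, (∀ i < r + 1, 0 ≤ w i) → (∀ i < r, w (i + 1) ≤ w i) →
    (∀ j ≤ r, 0 ≤ ∑ i ∈ range (j + 1), d i) →
    w r * ∑ i ∈ range (r + 1), d i ≤ ∑ i ∈ range (r + 1), w i * d i := by
  intro r
  induction r with
  | zero => intro _ _ _; simp
  | succ r ih =>
    intro hw hanti hS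
    have h1 := ih (fun i hi => hw i (by omega)) (fun i hi => hanti i (by omega))
      (fun j hj => hS j (by omega))
    rw [sum_range_succ, sum_range_succ (fun i => w i * d i)]
    have h2 := hanti r (by omega)
    have h3 := hS r (by omega)
    nlinarith [mul_le_mul_of_nonneg_right h2 h3]

/-- Tangent line inequality for `s ↦ log (1 - exp (-s))`. -/
lemma tangent {x g : ℝ} (hx : 1 < x) (hg : 1 < g) :
    (1 / (x - 1)) * (Real.log x - Real.log g) ≤
      (Real.log (x - 1) - Real.log x) - (Real.log (g - 1) - Real.log g) := by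
  -- concavity of log:  g / x = ((x-1)/x) * ((g-1)/(x-1)) + (1/x) * 1
  have hx0 : 0 < x := by linarith
  have hg0 : 0 < g := by linarith
  have hx1 : 0 < x - 1 := by linarith
  have hg1 : 0 < g - 1 := by linarith
  have hconc := strictConcaveOn_log_Ioi.concaveOn.2
    (show (g - 1) / (x - 1) ∈ Set.Ioi (0 : ℝ) from div_pos hg1 hx1)
    (show (1 : ℝ) ∈ Set.Ioi (0 : ℝ) from Set.mem_Ioi.2 one_pos)
    (show (0 : ℝ) ≤ (x - 1) / x from (div_pos hx1 hx0).le)
    (show (0 : ℝ) ≤ 1 / x from (div_pos one_pos hx0).le)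
    (by field_simp; ring)
  simp only [smul_eq_mul, Real.log_one, mul_zero, add_zero, mul_one] at hconc
  have h1 : (x - 1) / x * ((g - 1) / (x - 1)) + 1 / x = g / x := by field_simp; ring
  rw [h1, Real.log_div hg0.ne' hx0.ne', Real.log_div hg1.ne' hx1.ne'] at hconc
  rw [div_mul_eq_mul_div, div_le_iff₀ hx0] at hconc
  rw [div_mul_eq_mul_div, div_le_iff₀ hx1]
  linarith

lemma tangent_strict {x g : ℝ} (hx : 1 < x) (hg : 1 < g) (hne : x ≠ g) :
    (1 / (x - 1)) * (Real.log x - Real.log g) <
      (Real.log (x - 1) - Real.log x) - (Real.log (g - 1) - Real.log g) := by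
  have hx0 : 0 < x := by linarith
  have hg0 : 0 < g := by linarith
  have hx1 : 0 < x - 1 := by linarith
  have hg1 : 0 < g - 1 := by linarith
  have hconc := strictConcaveOn_log_Ioi.2
    (show (g - 1) / (x - 1) ∈ Set.Ioi (0 : ℝ) from div_pos hg1 hx1)
    (show (1 : ℝ) ∈ Set.Ioi (0 : ℝ) from Set.mem_Ioi.2 one_pos)
    (by
      intro h
      rw [div_eq_one_iff_eq hx1.ne'] at h
      exact hne (by linarith))
    (show (0 : ℝ) < (x - 1) / x from (div_pos hx1 hx0))
    (show (0 : ℝ) < 1 / x from (div_pos one_pos hx0))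
    (by field_simp; ring)
  simp only [smul_eq_mul, Real.log_one, mul_zero, add_zero, mul_one] at hconc
  have h1 : (x - 1) / x * ((g - 1) / (x - 1)) + 1 / x = g / x := by field_simp; ring
  rw [h1, Real.log_div hg0.ne' hx0.ne', Real.log_div hg1.ne' hx1.ne'] at hconc
  rw [div_mul_eq_mul_div, div_lt_iff₀ hx0] at hconc
  rw [div_mul_eq_mul_div, div_lt_iff₀ hx1]
  linarith

/-- If the partial products of the ascending sequence `x` dominate those of `g`, then
`∏ (1 - 1/x i) ≥ ∏ (1 - 1/g i)` (in logarithmic form), strictly unless `x = g`. -/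
lemma dom (r : ℕ) (x g : ℕ → ℝ) (hx : ∀ i < r + 1, 1 < x i) (hg : ∀ i < r + 1, 1 < g i)
    (hmono : ∀ i < r, x i ≤ x (i + 1))
    (hpart : ∀ j ≤ r, ∏ i ∈ range (j + 1), g i ≤ ∏ i ∈ range (j + 1), x i) :
    ∑ i ∈ range (r + 1), (Real.log (g i - 1) - Real.log (g i)) ≤
      ∑ i ∈ range (r + 1), (Real.log (x i - 1) - Real.log (x i)) ∧
    ((∃ i < r + 1, x i ≠ g i) →
    ∑ i ∈ range (r + 1), (Real.log (g i - 1) - Real.log (g i)) <
      ∑ i ∈ range (r + 1), (Real.log (x i - 1) - Real.log (x i))) := by
  have habel := abel_ge (fun i => 1 / (x i - 1)) (fun i => Real.log (x i) - Real.log (g i)) r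
    (fun i hi => by
      have := hx i hi
      exact (div_pos one_pos (by linarith)).le)
    (fun i hi => by
      have h1 := hx i (by omega)
      have h2 := hmono i hi
      exact one_div_le_one_div_of_le (by linarith) (by linarith))
    (fun j hj => by
      rw [sum_sub_distrib, sub_nonneg, ← Real.log_prod, ← Real.log_prod]
      · apply Real.log_le_log
        · exact prod_pos fun i hi => by
            have := hg i (by rw [mem_range] at hi; omega)
            linarith
        · exact hpart j hj
      · intro i hi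
        have := hx i (by rw [mem_range] at hi; omega)
        linarith
      · intro i hi
        have := hg i (by rw [mem_range] at hi; omega)
        linarith)
  have hnonneg : 0 ≤ (1 / (x r - 1)) * ∑ i ∈ range (r + 1), (Real.log (x i) - Real.log (g i)) := by
    apply mul_nonneg
    · have := hx r (by omega)
      exact (div_pos one_pos (by linarith)).le
    · rw [sum_sub_distrib, sub_nonneg, ← Real.log_prod, ← Real.log_prod]
      · apply Real.log_le_log
        · exact prod_pos fun i hi => by
            have := hg i (by rw [mem_range] at hi; omega)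
            linarith
        · exact hpart r le_rfl
      · intro i hi
        have := hx i (by rw [mem_range] at hi; omega)
        linarith
      · intro i hi
        have := hg i (by rw [mem_range] at hi; omega)
        linarith
  have hle : ∀ i ∈ range (r + 1), (1 / (x i - 1)) * (Real.log (x i) - Real.log (g i)) ≤
      (Real.log (x i - 1) - Real.log (x i)) - (Real.log (g i - 1) - Real.log (g i)) := by
    intro i hi
    rw [mem_range] at hi
    exact tangent (hx i hi) (hg i hi)
  constructor
  · have := sum_le_sum hle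
    rw [sum_sub_distrib (s := range (r + 1))
      (f := fun i => Real.log (x i - 1) - Real.log (x i))] at this
    linarith
  · rintro ⟨i, hi, hne⟩
    have := sum_lt_sum hle ⟨i, mem_range.2 hi, tangent_strict (hx i hi) (hg i hi) hne⟩
    rw [sum_sub_distrib (s := range (r + 1))
      (f := fun i => Real.log (x i - 1) - Real.log (x i))] at this
    linarith

/-- The greedy numbers. -/
def G (a i : ℕ) : ℕ := (a + 1) ^ (2 ^ i) + 1

lemma G_prod (a r : ℕ) : a * ∏ i ∈ range r, G a i + 1 = (a + 1) ^ (2 ^ r) := by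
  induction r with
  | zero => simp
  | succ r ih =>
    rw [prod_range_succ, ← mul_assoc, pow_succ 2 r, pow_mul]
    have : a * ∏ i ∈ range r, G a i = (a + 1) ^ 2 ^ r - 1 := by omega
    rw [this, G]
    have h1 : 1 ≤ (a + 1) ^ 2 ^ r := Nat.one_le_pow _ _ (by omega)
    obtain ⟨t, ht⟩ : ∃ t, (a + 1) ^ 2 ^ r = t + 1 := ⟨(a + 1) ^ 2 ^ r - 1, by omega⟩
    rw [ht]
    simp only [Nat.add_sub_cancel]
    ring

lemma G_pred_prod (a r : ℕ) : (a + 1) * ∏ i ∈ range r, (G a i - 1) = (a + 1) ^ (2 ^ r) := by
  induction r with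
  | zero => simp
  | succ r ih =>
    rw [prod_range_succ, ← mul_assoc, ih, G, pow_succ 2 r, pow_mul, Nat.add_sub_cancel]
    ring

/-- If all partial products dominate the greedy ones, then the sequence is the greedy one. -/
lemma eq_of_dom {r a b : ℕ} (ha : 0 < a) (x : ℕ → ℕ) (hx : ∀ i < r, 2 ≤ x i)
    (hmono : ∀ i, i + 1 < r → x i ≤ x (i + 1))
    (heq : b * ∏ i ∈ range r, (x i - 1) = a * ∏ i ∈ range r, x i + 1)
    (hdom : ∀ j ≤ r, (a + 1) ^ (2 ^ j) ≤ a * ∏ i ∈ range j, x i + 1) :
    b = a + 1 ∧ ∀ i < r, x i = G a i := by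
  have hGpos : ∀ j, 0 < ∏ i ∈ range j, G a i := fun j => prod_pos fun i _ => by unfold G; omega
  have hG1pos : ∀ j, 0 < ∏ i ∈ range j, (G a i - 1) := fun j => prod_pos fun i _ => by
    unfold G
    have : 0 < (a + 1) ^ 2 ^ i := by positivity
    omega
  have hxpos : ∀ j ≤ r, 0 < ∏ i ∈ range j, x i := fun j hj => prod_pos fun i hi => by
    have := hx i (by rw [mem_range] at hi; omega)
    omega
  have hx1pos : ∀ j ≤ r, 0 < ∏ i ∈ range j, (x i - 1) := fun j hj => prod_pos fun i hi => by
    have := hx i (by rw [mem_range] at hi; omega)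
    omega
  have hdom' : ∀ j ≤ r, ∏ i ∈ range j, G a i ≤ ∏ i ∈ range j, x i := by
    intro j hj
    have h1 := hdom j hj
    rw [← G_prod a j] at h1
    exact Nat.le_of_mul_le_mul_left (by omega) ha
  have hb : a + 1 ≤ b := by
    have h1 : ∏ i ∈ range r, (x i - 1) ≤ ∏ i ∈ range r, x i :=
      prod_le_prod' fun i _ => Nat.sub_le _ _
    have h2 := hx1pos r le_rfl
    by_contra h
    push Not at h
    have h3 : b * ∏ i ∈ range r, (x i - 1) ≤ a * ∏ i ∈ range r, x i :=
      Nat.mul_le_mul (by omega) h1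
    omega
  have hfinal : (∀ i < r, x i = G a i) → b = a + 1 ∧ ∀ i < r, x i = G a i := by
    intro h
    refine ⟨?_, h⟩
    have h1 : ∏ i ∈ range r, x i = ∏ i ∈ range r, G a i :=
      prod_congr rfl fun i hi => h i (mem_range.1 hi)
    have h2 : ∏ i ∈ range r, (x i - 1) = ∏ i ∈ range r, (G a i - 1) :=
      prod_congr rfl fun i hi => by rw [h i (mem_range.1 hi)]
    rw [h1, h2, G_prod, ← G_pred_prod] at heq
    exact Nat.eq_of_mul_eq_mul_right (hG1pos r) heq
  apply hfinal
  by_contra hne
  push Not at hne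
  obtain ⟨i0, hi0, hne0⟩ := hne
  obtain ⟨r', rfl⟩ : ∃ r', r = r' + 1 := ⟨r - 1, by omega⟩
  have key := (dom r' (fun i => (x i : ℝ)) (fun i => (G a i : ℝ))
    (fun i hi => by have := hx i hi; exact_mod_cast (by omega : 1 < x i))
    (fun i hi => by
      have : 1 < G a i := by
        unfold G
        have : 0 < (a + 1) ^ 2 ^ i := by positivity
        omega
      exact_mod_cast this)
    (fun i hi => by exact_mod_cast hmono i (by omega))
    (fun j hj => by exact_mod_cast hdom' (j + 1) (by omega))).2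
      ⟨i0, hi0, by exact_mod_cast hne0⟩
  set X := ∏ i ∈ range (r' + 1), x i with hX
  set Y := ∏ i ∈ range (r' + 1), G a i with hY
  set X1 := ∏ i ∈ range (r' + 1), (x i - 1) with hX1
  set Y1 := ∏ i ∈ range (r' + 1), (G a i - 1) with hY1
  have hXpos : (0 : ℝ) < X := by exact_mod_cast hxpos _ le_rfl
  have hYpos : (0 : ℝ) < Y := by exact_mod_cast hGpos _
  have hX1pos : (0 : ℝ) < X1 := by exact_mod_cast hx1pos _ le_rfl
  have hY1pos : (0 : ℝ) < Y1 := by exact_mod_cast hG1pos _
  have hcx : ∀ i ∈ range (r' + 1), ((x i : ℝ) - 1) = ((x i - 1 : ℕ) : ℝ) := by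
    intro i hi
    have := hx i (mem_range.1 hi)
    rw [Nat.cast_sub (by omega)]; simp
  have hcg : ∀ i ∈ range (r' + 1), ((G a i : ℝ) - 1) = ((G a i - 1 : ℕ) : ℝ) := by
    intro i hi
    have : 1 ≤ G a i := by unfold G; omega
    rw [Nat.cast_sub this]; simp
  have e1 : ∑ i ∈ range (r' + 1), (Real.log ((x i : ℝ) - 1) - Real.log (x i)) =
      Real.log X1 - Real.log X := by
    rw [sum_sub_distrib, hX1, hX, Nat.cast_prod, Nat.cast_prod, Real.log_prod, Real.log_prod]
    · congr 1
      exact sum_congr rfl fun i hi => by rw [hcx i hi]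
    · intro i hi
      have := hx i (mem_range.1 hi)
      exact_mod_cast (by omega : x i ≠ 0)
    · intro i hi
      have := hx i (mem_range.1 hi)
      exact_mod_cast (by omega : x i - 1 ≠ 0)
  have e2 : ∑ i ∈ range (r' + 1), (Real.log ((G a i : ℝ) - 1) - Real.log (G a i)) =
      Real.log Y1 - Real.log Y := by
    have hg : ∀ i, 0 < (a + 1) ^ 2 ^ i := fun i => by positivity
    rw [sum_sub_distrib, hY1, hY, Nat.cast_prod, Nat.cast_prod, Real.log_prod, Real.log_prod]
    · congr 1
      exact sum_congr rfl fun i hi => by rw [hcg i hi]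
    · intro i hi
      have : G a i ≠ 0 := by unfold G; omega
      exact_mod_cast this
    · intro i hi
      have : G a i - 1 ≠ 0 := by unfold G; have := hg i; omega
      exact_mod_cast this
  rw [e1, e2, ← Real.log_div hY1pos.ne' hYpos.ne', ← Real.log_div hX1pos.ne' hXpos.ne'] at key
  have key2 := (Real.log_lt_log_iff (by positivity) (by positivity)).1 key
  rw [div_lt_div_iff₀ hYpos hXpos] at key2
  have q1 : (b : ℝ) * X1 = a * X + 1 := by exact_mod_cast heq
  have q2 : ((a : ℝ) + 1) * Y1 = a * Y + 1 := by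
    have := G_pred_prod a (r' + 1)
    rw [← G_prod a (r' + 1)] at this
    exact_mod_cast this
  have q3 : (Y : ℝ) ≤ X := by exact_mod_cast hdom' (r' + 1) le_rfl
  have q4 : (a : ℝ) + 1 ≤ b := by exact_mod_cast hb
  -- (a+1) Y1 X = (aY+1) X ≥ (aX+1) Y = b X1 Y ≥ (a+1) X1 Y
  have t1 : ((a : ℝ) + 1) * (Y1 * X) < ((a : ℝ) + 1) * (X1 * Y) :=
    mul_lt_mul_of_pos_left key2 (by positivity)
  have t2 : ((a : ℝ) + 1) * (X1 * Y) ≤ b * (X1 * Y) :=
    mul_le_mul_of_nonneg_right q4 (by positivity)
  have t3 : (b : ℝ) * (X1 * Y) = (a * X + 1) * Y := by rw [← q1]; ring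
  have t4 : ((a : ℝ) + 1) * (Y1 * X) = (a * Y + 1) * X := by rw [← q2]; ring
  nlinarith

theorem main_bound : ∀ (r a b : ℕ) (x : ℕ → ℕ), 0 < a → (∀ i < r, 2 ≤ x i) →
    (∀ i, i + 1 < r → x i ≤ x (i + 1)) →
    b * ∏ i ∈ range r, (x i - 1) = a * ∏ i ∈ range r, x i + 1 →
    a * ∏ i ∈ range r, x i + 1 ≤ (a + 1) ^ (2 ^ r) ∧
    (a * ∏ i ∈ range r, x i + 1 = (a + 1) ^ (2 ^ r) → b = a + 1 ∧ ∀ i < r, x i = G a i) := by
  intro r
  induction r using Nat.strong_induction_on with
  | _ r ih =>
    intro a b x ha hx hmono heq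
    by_cases hdom : ∀ j ≤ r, (a + 1) ^ (2 ^ j) ≤ a * ∏ i ∈ range j, x i + 1
    · obtain ⟨h1, h2⟩ := eq_of_dom ha x hx hmono heq hdom
      refine ⟨?_, fun _ => ⟨h1, h2⟩⟩
      rw [← G_prod a r]
      apply le_of_eq
      congr 2
      exact prod_congr rfl fun i hi => h2 i (mem_range.1 hi)
    · push Not at hdom
      obtain ⟨j, hj, hlt⟩ := hdom
      have hj0 : j ≠ 0 := by
        rintro rfl
        simp at hlt
      -- split the products
      have hsplit : ∀ f : ℕ → ℕ, ∏ i ∈ range r, f i =
          (∏ i ∈ range j, f i) * ∏ i ∈ range (r - j), f (i + j) := by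
        intro f
        have := prod_range_add f j (r - j)
        rw [Nat.add_sub_cancel' hj] at this
        rw [this]
        congr 1
        exact prod_congr rfl fun i _ => by rw [add_comm]
      have ha' : 0 < a * ∏ i ∈ range j, x i := by
        apply Nat.mul_pos ha
        exact prod_pos fun i hi => by
          have := hx i (by rw [mem_range] at hi; omega)
          omega
      have key := ih (r - j) (by omega) (a * ∏ i ∈ range j, x i) (b * ∏ i ∈ range j, (x i - 1))
        (fun i => x (i + j)) ha' (fun i hi => hx _ (by omega))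
        (fun i hi => by
          have := hmono (i + j) (by omega)
          rwa [show i + j + 1 = i + 1 + j by ring] at this)
        (by
          have h1 := hsplit x
          have h2 := hsplit (fun i => x i - 1)
          rw [h1, h2] at heq
          rw [mul_assoc, heq, mul_assoc])
      have h3 : a * ∏ i ∈ range r, x i + 1 < (a + 1) ^ (2 ^ r) := by
        calc a * ∏ i ∈ range r, x i + 1
            = (a * ∏ i ∈ range j, x i) * ∏ i ∈ range (r - j), x (i + j) + 1 := by
              rw [hsplit x, mul_assoc]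
          _ ≤ (a * ∏ i ∈ range j, x i + 1) ^ (2 ^ (r - j)) := key.1
          _ < ((a + 1) ^ (2 ^ j)) ^ (2 ^ (r - j)) :=
              Nat.pow_lt_pow_left hlt (by positivity)
          _ = (a + 1) ^ (2 ^ r) := by
              rw [← pow_mul, ← pow_add, Nat.add_sub_cancel' hj]
      exact ⟨h3.le, fun h => absurd h h3.ne⟩

/-- A product over a finite set of naturals written along its increasing enumeration. -/
lemma exists_enum (s : Finset ℕ) : ∃ x : ℕ → ℕ, (∀ i < s.card, x i ∈ s) ∧
    (∀ i, i + 1 < s.card → x i ≤ x (i + 1)) ∧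
    ∀ f : ℕ → ℕ, ∏ p ∈ s, f p = ∏ i ∈ range s.card, f (x i) := by
  classical
  let e := s.orderEmbOfFin rfl
  refine ⟨fun i => if h : i < s.card then e ⟨i, h⟩ else 0, ?_, ?_, ?_⟩
  · intro i hi
    simp only [hi, dif_pos]
    exact s.orderEmbOfFin_mem rfl _
  · intro i hi
    have hi' : i < s.card := by omega
    simp only [hi, hi', dif_pos]
    exact e.monotone (by simp [Fin.le_def])
  · intro f
    rw [← Fin.prod_univ_eq_prod_range]
    have h1 : ∏ p ∈ s, f p = ∏ i : Fin s.card, f (e i) := by
      have : s = Finset.univ.map e.toEmbedding := by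
        rw [s.map_orderEmbOfFin_univ rfl]
      conv_lhs => rw [this]
      rw [Finset.prod_map]
      rfl
    rw [h1]
    refine prod_congr rfl fun i _ => ?_
    simp only [i.2, dif_pos]

lemma squarefree_of_dvd {n : ℕ} (h : Nat.totient n ∣ n + 1) : Squarefree n := by
  rw [Nat.squarefree_iff_prime_squarefree]
  intro p hp hpn
  have h1 : p ∣ Nat.totient n := by
    have h2 := Nat.totient_dvd_of_dvd hpn
    have h3 : Nat.totient (p * p) = p * (p - 1) := by
      have := Nat.totient_prime_pow hp (n := 2) (by norm_num)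
      simpa [pow_two] using this
    rw [h3] at h2
    exact (Dvd.intro _ rfl).trans h2
  have h4 : p ∣ n + 1 := h1.trans h
  have h5 : p ∣ n := (Dvd.intro _ rfl).trans hpn
  have h6 : p ∣ 1 := (Nat.dvd_add_right h5).1 h4
  exact hp.one_lt.ne' (Nat.dvd_one.1 h6)

/-- Every solution `n ≥ 2` of `φ(n) ∣ n + 1` with `K` distinct prime factors satisfies
`n + 1 ≤ 2 ^ (2 ^ K)`, with equality exactly for `n = 2 ^ (2 ^ k) - 1`, `1 ≤ k ≤ 5`. -/
theorem result (n : ℕ) (hn : 2 ≤ n) (h : Nat.totient n ∣ n + 1) :
    n + 1 ≤ 2 ^ 2 ^ n.primeFactors.card ∧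
    (n + 1 = 2 ^ 2 ^ n.primeFactors.card ↔ ∃ k : ℕ, 1 ≤ k ∧ k ≤ 5 ∧ n = 2 ^ (2 ^ k) - 1) := by
  have hsq := squarefree_of_dvd h
  obtain ⟨M, hM⟩ := h
  obtain ⟨x, hx1, hx2, hx3⟩ := exists_enum n.primeFactors
  have hprod : ∏ i ∈ range n.primeFactors.card, x i = n := by
    rw [← hx3 (fun p => p)]
    exact Nat.prod_primeFactors_of_squarefree hsq
  have htot : ∏ i ∈ range n.primeFactors.card, (x i - 1) = Nat.totient n := by
    rw [← hx3 (fun p => p - 1)]
    have h1 := Nat.totient_mul_prod_primeFactors n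
    rw [Nat.prod_primeFactors_of_squarefree hsq, mul_comm] at h1
    exact (Nat.eq_of_mul_eq_mul_left (by omega) h1).symm
  have hxp : ∀ i < n.primeFactors.card, (x i).Prime := fun i hi =>
    Nat.prime_of_mem_primeFactors (hx1 i hi)
  have key := main_bound n.primeFactors.card 1 M x one_pos (fun i hi => (hxp i hi).two_le) hx2
    (by rw [hprod, htot, one_mul, hM, mul_comm])
  rw [hprod, one_mul] at key
  norm_num at key
  refine ⟨key.1, fun heq => ?_, ?_⟩
  · obtain ⟨_, hG⟩ := key.2 heq
    refine ⟨n.primeFactors.card, ?_, ?_, by omega⟩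
    · have : n.primeFactors.Nonempty := Nat.nonempty_primeFactors.2 (by omega)
      exact this.card_pos
    · by_contra hcard
      push Not at hcard
      have h5 := hG 5 hcard
      have h6 := hxp 5 hcard
      rw [h5] at h6
      unfold G at h6
      norm_num at h6
  · rintro ⟨k, hk1, hk5, rfl⟩
    have hcard : (2 ^ 2 ^ k - 1).primeFactors.card = k := by
      interval_cases k
      · have : (2 ^ 2 ^ 1 - 1 : ℕ) = 3 := by norm_num
        rw [this, Nat.Prime.primeFactors (by norm_num)]
        rfl
      · have : (2 ^ 2 ^ 2 - 1 : ℕ) = 3 * 5 := by norm_num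
        rw [this, Nat.primeFactors_mul (by norm_num) (by norm_num),
          Nat.Prime.primeFactors (by norm_num), Nat.Prime.primeFactors (by norm_num)]
        rfl
      · have : (2 ^ 2 ^ 3 - 1 : ℕ) = 3 * 5 * 17 := by norm_num
        rw [this, Nat.primeFactors_mul (by norm_num) (by norm_num),
          Nat.primeFactors_mul (by norm_num) (by norm_num),
          Nat.Prime.primeFactors (by norm_num), Nat.Prime.primeFactors (by norm_num),
          Nat.Prime.primeFactors (by norm_num)]
        rfl
      · have : (2 ^ 2 ^ 4 - 1 : ℕ) = 3 * 5 * 17 * 257 := by norm_num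
        rw [this, Nat.primeFactors_mul (by norm_num) (by norm_num),
          Nat.primeFactors_mul (by norm_num) (by norm_num),
          Nat.primeFactors_mul (by norm_num) (by norm_num),
          Nat.Prime.primeFactors (by norm_num), Nat.Prime.primeFactors (by norm_num),
          Nat.Prime.primeFactors (by norm_num), Nat.Prime.primeFactors (by norm_num)]
        rfl
      · have : (2 ^ 2 ^ 5 - 1 : ℕ) = 3 * 5 * 17 * 257 * 65537 := by norm_num
        rw [this, Nat.primeFactors_mul (by norm_num) (by norm_num),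
          Nat.primeFactors_mul (by norm_num) (by norm_num),
          Nat.primeFactors_mul (by norm_num) (by norm_num),
          Nat.primeFactors_mul (by norm_num) (by norm_num),
          Nat.Prime.primeFactors (by norm_num), Nat.Prime.primeFactors (by norm_num),
          Nat.Prime.primeFactors (by norm_num), Nat.Prime.primeFactors (by norm_num),
          Nat.Prime.primeFactors (by norm_num)]
        rfl
    rw [hcard]
    have : 1 ≤ 2 ^ 2 ^ k := Nat.one_le_two_pow
    omega

end Pool.Agent.Results.MP_cb106b_nt.SharpBound
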